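import Pool.Agent.U483.KP.Main

/-!
# The class of a smooth projective scheme in `K_0(Var_k)` determines its motives
-/

set_option autoImplicit false

open CategoryTheory CategoryTheory.Limits AlgebraicGeometry Module Pool.Agent.Y116.UV
  Pool.Agent.U483.KM Pool.Agent.U483.GU

namespace Pool.Agent.U483.KP

universe w x

section

variable {𝓜 : Type w} [Category.{x} 𝓜] [Abelian 𝓜] [Linear ℚ 𝓜]

lemma finrank_of_iso (S : 𝓜) {A B : 𝓜} (e : A ≅ B) : finrank ℚ (S ⟶ A) = finrank ℚ (S ⟶ B) :=
  (Linear.homCongr ℚ (Iso.refl S) e).finrank_eq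

lemma finrank_of_iso_src (S : 𝓜) {A B : 𝓜} (e : A ≅ B) : finrank ℚ (A ⟶ S) = finrank ℚ (B ⟶ S) :=
  (Linear.homCongr ℚ e (Iso.refl S)).finrank_eq

/-- maps to a sum -/
noncomputable def homSum (S A B : 𝓜) : (S ⟶ A ⊞ B) ≃ₗ[ℚ] (S ⟶ A) × (S ⟶ B) where
  toFun f := (f ≫ biprod.fst, f ≫ biprod.snd)
  invFun f := biprod.lift f.1 f.2
  left_inv f := by
    ext <;> simp
  right_inv f := by
    ext <;> simp
  map_add' f g := by
    ext <;> simp
  map_smul' c f := by
    ext <;> simp

lemma finrank_sum (h : IsSemisimple 𝓜) (S A B : 𝓜) :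
    finrank ℚ (S ⟶ A ⊞ B) = finrank ℚ (S ⟶ A) + finrank ℚ (S ⟶ B) := by
  have := h.finite S A
  have := h.finite S B
  rw [(homSum S A B).finrank_eq, finrank_prod]

/-- a direct factor has a complement -/
lemma complement (h : IsSemisimple 𝓜) {I A : 𝓜} (s : I ⟶ A) (r : A ⟶ I) (hsr : s ≫ r = 𝟙 I) :
    ∃ A' : 𝓜, Nonempty (A ≅ I ⊞ A') := by
  have : Mono s := by
    have : Mono (s ≫ r) := by rw [hsr]; infer_instance
    exact mono_of_mono s r
  have h1 : (ShortComplex.mk s (cokernel.π s) (cokernel.condition s)).ShortExact :=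
    { exact := ShortComplex.exact_of_g_is_cokernel _ (cokernelIsCokernel s)
      mono_f := by dsimp; infer_instance
      epi_g := by dsimp; infer_instance }
  obtain ⟨S⟩ := h.split _ h1
  exact ⟨_, ⟨S.isoBinaryBiproduct⟩⟩

/-- Two objects with the same dimensions of the spaces of morphisms from all objects are
isomorphic. -/
theorem iso_of_finrank (h : IsSemisimple 𝓜) : ∀ (n : ℕ) (A B : 𝓜), finrank ℚ (A ⟶ A) ≤ n →
    (∀ S : 𝓜, finrank ℚ (S ⟶ A) = finrank ℚ (S ⟶ B)) → Nonempty (A ≅ B) := by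
  intro n
  induction n with
  | zero =>
    intro A B h1 h2
    have hz : ∀ C : 𝓜, finrank ℚ (C ⟶ C) = 0 → IsZero C := by
      intro C hC
      have := h.finite C C
      have h3 : Subsingleton (C ⟶ C) := finrank_zero_iff.1 hC
      exact (IsZero.iff_id_eq_zero C).2 (Subsingleton.elim _ _)
    have hA := hz A (by omega)
    have hB := hz B (by rw [← h2 B, finrank_zero_of_isZero B hA])
    exact ⟨hA.iso hB⟩
  | succ n ih =>
    intro A B h1 h2
    by_cases h0 : finrank ℚ (A ⟶ A) = 0
    · exact ih A B (by omega) h2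
    have hAB : finrank ℚ (A ⟶ B) ≠ 0 := by rw [← h2 A]; exact h0
    obtain ⟨f, hf⟩ : ∃ f : A ⟶ B, f ≠ 0 := by
      by_contra hc
      push Not at hc
      have : Subsingleton (A ⟶ B) := ⟨fun f g => by rw [hc f, hc g]⟩
      exact hAB finrank_zero_of_subsingleton
    obtain ⟨s, hs⟩ := epi_split h (factorThruImage f)
    obtain ⟨r, hr⟩ := mono_split h (Limits.image.ι f)
    obtain ⟨A', ⟨eA⟩⟩ := complement h s (factorThruImage f) hs
    obtain ⟨B', ⟨eB⟩⟩ := complement h (Limits.image.ι f) r hr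
    have hI : finrank ℚ (Limits.image f ⟶ Limits.image f) ≠ 0 := by
      intro hc
      have := h.finite (Limits.image f) (Limits.image f)
      have h3 : Subsingleton (Limits.image f ⟶ Limits.image f) := finrank_zero_iff.1 hc
      apply hf
      rw [← Limits.image.fac f, ← Category.comp_id (factorThruImage f),
        Subsingleton.elim (𝟙 (Limits.image f)) 0, comp_zero, zero_comp]
    have hA' : ∀ S : 𝓜, finrank ℚ (S ⟶ A') = finrank ℚ (S ⟶ B') := by
      intro S
      have h3 := h2 S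
      rw [finrank_of_iso S eA, finrank_of_iso S eB, finrank_sum h, finrank_sum h] at h3
      omega
    have hlt : finrank ℚ (A' ⟶ A') < finrank ℚ (A ⟶ A) := by
      have h3 : finrank ℚ (A ⟶ A) = finrank ℚ (A ⟶ Limits.image f) + finrank ℚ (A ⟶ A') := by
        rw [finrank_of_iso A eA, finrank_sum h]
      have inj : ∀ (C S X : 𝓜) (i : C ⟶ S) (p : S ⟶ C), i ≫ p = 𝟙 C →
          finrank ℚ (C ⟶ X) ≤ finrank ℚ (S ⟶ X) := by
        intro C S X i p hip
        have := h.finite S X
        refine LinearMap.finrank_le_finrank_of_injective (f := Linear.leftComp ℚ X p) ?_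
        intro u v huv
        have h4 : p ≫ u = p ≫ v := huv
        calc u = (i ≫ p) ≫ u := by rw [hip, Category.id_comp]
          _ = (i ≫ p) ≫ v := by rw [Category.assoc, h4, Category.assoc]
          _ = v := by rw [hip, Category.id_comp]
      have h5 := inj (Limits.image f) A (Limits.image f) s (factorThruImage f) hs
      have h6 := inj A' A A' (biprod.inr ≫ eA.inv) (eA.hom ≫ biprod.snd) (by simp)
      omega
    obtain ⟨e⟩ := ih A' B' (by omega) hA'
    exact ⟨eA ≪≫ biprod.mapIso (Iso.refl _) e ≪≫ eB.symm⟩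

end

variable {k : Type} [Field k] {𝓜 : Type w} [Category.{x} 𝓜] [Abelian 𝓜] [Linear ℚ 𝓜]
  (H : CompactCoh.{w, x} k 𝓜)

lemma mu_pure {X : Var k} (hX : SmoothProjective X.1) (i : ℤ) (S : 𝓜) :
    mu H i S (cls X) = (i.negOnePow : ℤ) * (finrank ℚ (S ⟶ H.h i i X.1) : ℤ) := by
  rw [mu_cls, eul, finsum_eq_single _ i]
  intro n hn
  rw [finrank_zero_of_isZero S (H.pure X.1 hX n i hn), Nat.cast_zero, mul_zero]

/-- Smooth projective schemes with the same class in `K_0(Var_k)` have isomorphic motives. -/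
theorem iso_of_cls {X X' : Var k} (hX : SmoothProjective X.1) (hX' : SmoothProjective X'.1)
    (h : cls X = cls X') (i : ℤ) : Nonempty (H.h i i X.1 ≅ H.h i i X'.1) := by
  refine iso_of_finrank H.semisimple _ _ _ le_rfl fun S => ?_
  have h1 := mu_pure H hX i S
  rw [h, mu_pure H hX' i S] at h1
  have h2 := mul_left_cancel₀ (Units.ne_zero i.negOnePow) h1
  exact_mod_cast h2.symm

end Pool.Agent.U483.KP
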