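import Pool.Agent.U483.KM.Defs

/-!
# Products and the Grothendieck group of varieties
-/

set_option autoImplicit false

open CategoryTheory CategoryTheory.Limits AlgebraicGeometry Pool.Agent.Y116.UV Pool.Agent.U483.KM

namespace Pool.Agent.U483.KP

variable {k : Type} [Field k]

/-- the product with `Y` -/
noncomputable def pr (Y : Sch k) : Sch k ⥤ Sch k := Over.pullback Y.hom ⋙ Over.map Y.hom

lemma pr_hom (Y X : Sch k) : ((pr Y).obj X).hom = pullback.snd X.hom Y.hom ≫ Y.hom := rfl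

lemma ft_comp {A B S : Scheme} (f : A ⟶ S) (g : B ⟶ S) [LocallyOfFiniteType f]
    [LocallyOfFiniteType g] : LocallyOfFiniteType (pullback.snd f g ≫ g) := inferInstance

lemma qc_comp {A B S : Scheme} (f : A ⟶ S) (g : B ⟶ S) [QuasiCompact f]
    [QuasiCompact g] : QuasiCompact (pullback.snd f g ≫ g) := inferInstance

lemma sep_comp {A B S : Scheme} (f : A ⟶ S) (g : B ⟶ S) [IsSeparated f]
    [IsSeparated g] : IsSeparated (pullback.snd f g ≫ g) := inferInstance

lemma pr_ft {X Y : Sch k} (hX : FT True X) (hY : FT True Y) : FT True ((pr Y).obj X) := by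
  have h1 := hX.locallyOfFiniteType
  have h2 := hX.quasiCompact
  have h3 := hX.separated trivial
  have h4 := hY.locallyOfFiniteType
  have h5 := hY.quasiCompact
  have h6 := hY.separated trivial
  exact ⟨ft_comp X.hom Y.hom, qc_comp X.hom Y.hom, fun _ => sep_comp X.hom Y.hom⟩

lemma pr_map_left (Y : Sch k) {Z X : Sch k} (i : Z ⟶ X) : ((pr Y).map i).left =
    pullback.lift (pullback.fst Z.hom Y.hom ≫ i.left) (pullback.snd Z.hom Y.hom)
      (by rw [Category.assoc, Over.w i]; exact pullback.condition) := rfl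

lemma pr_square (Y : Sch k) {Z X : Sch k} (i : Z ⟶ X) :
    IsPullback ((pr Y).map i).left (pullback.fst Z.hom Y.hom) (pullback.fst X.hom Y.hom) i.left := by
  have h1 : IsPullback (pullback.snd X.hom Y.hom) (pullback.fst X.hom Y.hom) Y.hom X.hom :=
    (IsPullback.of_hasPullback X.hom Y.hom).flip
  have h2 : IsPullback (((pr Y).map i).left ≫ pullback.snd X.hom Y.hom) (pullback.fst Z.hom Y.hom)
      Y.hom (i.left ≫ X.hom) := by
    have h3 : ((pr Y).map i).left ≫ pullback.snd X.hom Y.hom = pullback.snd Z.hom Y.hom := by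
      rw [pr_map_left]
      exact pullback.lift_snd _ _ _
    rw [h3, Over.w i]
    exact (IsPullback.of_hasPullback Z.hom Y.hom).flip
  refine IsPullback.of_right h2 ?_ h1
  rw [pr_map_left]
  exact pullback.lift_fst _ _ _

lemma range_of_isPullback {A B C D : Scheme} {f : A ⟶ B} {g : A ⟶ C} {p : B ⟶ D} {i : C ⟶ D}
    (h : IsPullback f g p i) : Set.range f = p ⁻¹' Set.range i := by
  have h1 : ∀ y, f y = (pullback.fst p i) (h.isoPullback.hom y) := by
    intro y
    rw [← Scheme.Hom.comp_apply, h.isoPullback_hom_fst]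
  rw [← Scheme.Pullback.range_fst]
  ext x
  constructor
  · rintro ⟨y, rfl⟩
    exact ⟨h.isoPullback.hom y, (h1 y).symm⟩
  · rintro ⟨y, rfl⟩
    obtain ⟨z, rfl⟩ := h.isoPullback.hom.surjective y
    exact ⟨z, h1 z⟩

lemma pr_triple (Y : Sch k) {Z X U : Sch k} (i : Z ⟶ X) (j : U ⟶ X) (h : IsTriple i j) :
    IsTriple ((pr Y).map i) ((pr Y).map j) := by
  have h1 := h.closed
  have h2 := h.opened
  refine ⟨MorphismProperty.of_isPullback (P := @IsClosedImmersion) (pr_square Y i).flip h1,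
    MorphismProperty.of_isPullback (P := @IsOpenImmersion) (pr_square Y j).flip h2, ?_⟩
  rw [range_of_isPullback (pr_square Y i), range_of_isPullback (pr_square Y j), h.compl,
    Set.preimage_compl]

/-- the product with `Y` -/
noncomputable def prV (Y X : Var k) : Var k := ⟨(pr Y.1).obj X.1, pr_ft X.2 Y.2⟩

/-- The multiplication with the class of `Y` on `K_0(Var_k)`. -/
noncomputable def mulK (Y : Var k) : K0 k →+ K0 k :=
  QuotientAddGroup.lift _ (FreeAbelianGroup.lift fun X => cls (prV Y X)) (by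
    have hr : ∀ r ∈ relations k, (QuotientAddGroup.mk r : K0 k) = 0 := fun r hr =>
      (QuotientAddGroup.eq_zero_iff r).2 (AddSubgroup.subset_closure hr)
    rw [AddSubgroup.closure_le]
    rintro r (⟨X, X', ⟨e⟩, rfl⟩ | ⟨Z, X, U, i, j, ht, rfl⟩)
    · change (FreeAbelianGroup.lift fun X => cls (prV Y X)) _ = 0
      rw [map_sub, FreeAbelianGroup.lift_apply_of, FreeAbelianGroup.lift_apply_of]
      exact hr _ (Or.inl ⟨prV Y X, prV Y X', ⟨(pr Y.1).mapIso e⟩, rfl⟩)
    · change (FreeAbelianGroup.lift fun X => cls (prV Y X)) _ = 0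
      rw [map_sub, map_add, FreeAbelianGroup.lift_apply_of, FreeAbelianGroup.lift_apply_of,
        FreeAbelianGroup.lift_apply_of]
      exact hr _ (Or.inr ⟨prV Y Z, prV Y X, prV Y U, (pr Y.1).map i, (pr Y.1).map j,
        pr_triple Y.1 i j ht, rfl⟩))

lemma mulK_cls (Y X : Var k) : mulK Y (cls X) = cls (prV Y X) := by
  change (FreeAbelianGroup.lift fun X => cls (prV Y X)) (FreeAbelianGroup.of X) = _
  rw [FreeAbelianGroup.lift_apply_of]

lemma cls_iso {X X' : Var k} (e : X.1 ≅ X'.1) : cls X = cls X' := by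
  have h : (QuotientAddGroup.mk (FreeAbelianGroup.of X - FreeAbelianGroup.of X') : K0 k) = 0 :=
    (QuotientAddGroup.eq_zero_iff _).2 (AddSubgroup.subset_closure (Or.inl ⟨X, X', ⟨e⟩, rfl⟩))
  rwa [QuotientAddGroup.mk_sub, sub_eq_zero] at h

lemma iso_of_isProd {X Y Z : Sch k} {p : Z ⟶ X} {r : Z ⟶ Y} (h : IsProd p r) :
    Nonempty (Z ≅ (pr Y).obj X) := by
  obtain ⟨h⟩ := h
  have h1 : IsPullback p.left r.left X.hom Y.hom := Over.isPullback_of_binaryFan_isLimit _ h
  exact ⟨Over.isoMk h1.isoPullback ((h1.isoPullback_hom_snd_assoc Y.hom).trans (Over.w r))⟩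

lemma mulK_comm (X Y : Var k) : mulK Y (cls X) = mulK X (cls Y) := by
  have h1 : IsPullback (pullback.fst X.1.hom Y.1.hom) (pullback.snd X.1.hom Y.1.hom) X.1.hom
    Y.1.hom := IsPullback.of_hasPullback _ _
  rw [mulK_cls, mulK_cls]
  refine cls_iso (X := prV Y X) (X' := prV X Y) (Over.isoMk (pullbackSymmetry X.1.hom Y.1.hom) ?_)
  change (pullbackSymmetry X.1.hom Y.1.hom).hom ≫ pullback.snd Y.1.hom X.1.hom ≫ X.1.hom =
    pullback.snd X.1.hom Y.1.hom ≫ Y.1.hom
  rw [← Category.assoc, pullbackSymmetry_hom_comp_snd]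
  exact pullback.condition

lemma cls_of_isProd {X Y Z : Var k} {p : Z.1 ⟶ X.1} {r : Z.1 ⟶ Y.1} (h : IsProd p r) :
    cls Z = mulK Y (cls X) := by
  obtain ⟨e⟩ := iso_of_isProd h
  rw [mulK_cls]
  exact cls_iso (X := Z) (X' := prV Y X) e

lemma prV_isProd (X Y : Var k) : ∃ (p : (prV Y X).1 ⟶ X.1) (r : (prV Y X).1 ⟶ Y.1), IsProd p r := by
  refine ⟨Over.homMk (pullback.fst X.1.hom Y.1.hom) pullback.condition,
    Over.homMk (pullback.snd X.1.hom Y.1.hom) rfl, ⟨BinaryFan.isLimitMk
      (fun s => Over.homMk (pullback.lift s.fst.left s.snd.left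
        ((Over.w s.fst).trans (Over.w s.snd).symm)) ?_) ?_ ?_ ?_⟩⟩
  · exact (pullback.lift_snd_assoc _ _ _ _).trans (Over.w s.snd)
  · intro s
    exact Over.OverMorphism.ext (pullback.lift_fst _ _ _)
  · intro s
    exact Over.OverMorphism.ext (pullback.lift_snd _ _ _)
  · intro s m e₁ e₂
    have h1 : m.left ≫ pullback.fst X.1.hom Y.1.hom = s.fst.left := congrArg (fun t => t.left) e₁
    have h2 : m.left ≫ pullback.snd X.1.hom Y.1.hom = s.snd.left := congrArg (fun t => t.left) e₂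
    refine Over.OverMorphism.ext ?_
    have h3 : m.left = pullback.lift s.fst.left s.snd.left
        ((Over.w s.fst).trans (Over.w s.snd).symm) :=
      pullback.hom_ext (h1.trans (pullback.lift_fst _ _ _).symm)
        (h2.trans (pullback.lift_snd _ _ _).symm)
    exact h3

/-- The class of a product depends only on the classes of the factors. -/
theorem cls_prod {X X' Y Y' Z Z' : Var k} {p : Z.1 ⟶ X.1} {r : Z.1 ⟶ Y.1} {p' : Z'.1 ⟶ X'.1}
    {r' : Z'.1 ⟶ Y'.1} (h : IsProd p r) (h' : IsProd p' r') (hX : cls X = cls X')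
    (hY : cls Y = cls Y') : cls Z = cls Z' := by
  have key : ∀ {X Y Z : Var k} {p : Z.1 ⟶ X.1} {r : Z.1 ⟶ Y.1}, IsProd p r →
      cls Z = mulK Y (cls X) := by
    intro X Y Z p r h
    obtain ⟨e⟩ := iso_of_isProd h
    rw [mulK_cls]
    exact cls_iso (X := Z) (X' := prV Y X) e
  rw [key h, hX, mulK_comm X' Y, hY, ← mulK_comm X' Y', key h']

end Pool.Agent.U483.KP
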