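import Pool.Agent.U483.KP.Defs
import Pool.Agent.U483.KM.Cat
import Pool.Agent.U483.CX.Strat
import Pool.Agent.U738.BN.Bnd
import Pool.Agent.U583.MW.Geo
import Pool.Agent.Z125.UN.Dim2

/-!
# Classes of motives and the Grothendieck ring of varieties
-/

set_option autoImplicit false

open CategoryTheory CategoryTheory.Limits AlgebraicGeometry MonoidalCategory Module
  Pool.Agent.Y116.UV Pool.Agent.U483.KM Pool.Agent.U483.GU Pool.Agent.Z125.UN Pool.Agent.U583.MW

namespace Pool.Agent.U483.KP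

universe w x

section

variable {k : Type} [Field k] {𝓜 : Type w} [Category.{x} 𝓜] [Abelian 𝓜] [Linear ℚ 𝓜]
  (H : CompactCoh.{w, x} k 𝓜) {P : 𝓜 → Prop}

omit [Linear ℚ 𝓜] in
lemma IsThick.iso (hP : IsThick P) {A B : 𝓜} (e : A ≅ B) (h : P A) : P B :=
  hP.retract e.inv e.hom e.inv_hom_id h

lemma IsThick.good (hP : IsThick P) (h𝓜 : IsSemisimple 𝓜) : IsGoodClass P where
  retract := hP.retract
  ext S hS h1 h3 := by
    obtain ⟨T⟩ := h𝓜.split S hS
    exact hP.iso T.isoBinaryBiproduct.symm (hP.sum _ _ h1 h3)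

lemma mid (hP : IsThick P) (h𝓜 : IsSemisimple 𝓜) {A B C : 𝓜} {f : A ⟶ B} {g : B ⟶ C}
    (hfg : ExactAt f g) (hA : P A) (hC : P C) : P B := by
  obtain ⟨h0, he⟩ := hfg
  have hse : (ShortComplex.mk (kernel.ι (factorThruImage g)) (factorThruImage g)
      (kernel.condition _)).ShortExact :=
    { exact := ShortComplex.exact_of_f_is_kernel _ (kernelIsKernel _)
      mono_f := by dsimp; infer_instance
      epi_g := by dsimp; infer_instance }
  have hI : P (Limits.image g) := by
    obtain ⟨r, hr⟩ := mono_split h𝓜 (Limits.image.ι g)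
    exact hP.retract _ r hr hC
  have hq : f ≫ factorThruImage g = 0 := by
    rw [← cancel_mono (Limits.image.ι g), Category.assoc, Limits.image.fac, h0, zero_comp]
  have hy : kernel.ι (factorThruImage g) ≫ g = 0 := by
    have h1 : kernel.ι (factorThruImage g) ≫ (factorThruImage g ≫ Limits.image.ι g) = 0 := by
      rw [← Category.assoc, kernel.condition, zero_comp]
    exact (congrArg (fun t => kernel.ι (factorThruImage g) ≫ t) (Limits.image.fac g)).symm.trans h1
  obtain ⟨A', π, hπ, x₁, hx⟩ := he.exact_up_to_refinements _ hy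
  obtain ⟨s, hs⟩ := epi_split h𝓜 π
  dsimp at hx
  have hK : P (kernel (factorThruImage g)) := by
    refine hP.retract (s ≫ x₁) (kernel.lift _ f hq) ?_ hA
    rw [← cancel_mono (kernel.ι (factorThruImage g)), Category.assoc, kernel.lift_ι, Category.assoc,
      ← hx, ← Category.assoc, hs, Category.id_comp]
  exact (hP.good h𝓜).ext _ hse hK hI

/-- The additive function on `K_0(Var_k)` given by an object of the category of motives. -/
noncomputable def mu0 (w : ℤ) (S : 𝓜) : FreeAbelianGroup (Var k) →+ ℤ :=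
  FreeAbelianGroup.lift fun X => eul S fun n => H.h n w X.1

lemma eul_triple (w : ℤ) (S : 𝓜) {Z X U : Var k} (i : Z.1 ⟶ X.1) (j : U.1 ⟶ X.1)
    (ht : IsTriple i j) : (eul S fun n => H.h n w X.1) = (eul S fun n => H.h n w Z.1) +
      eul S fun n => H.h n w U.1 := by
  obtain ⟨n1, h1⟩ := H.bounded Z.1 Z.2
  obtain ⟨n2, h2⟩ := H.bounded X.1 X.2
  obtain ⟨n3, h3⟩ := H.bounded U.1 U.2
  refine eul_add H.semisimple S (H.sequence w i j X.2 ht) (n1 + n2 + n3) (fun i hi => h3 i w ?_)
    (fun i hi => h2 i w ?_) (fun i hi => h1 i w ?_) <;>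
  · push_cast at hi
    omega

lemma eul_iso (S : 𝓜) {A B : ℤ → 𝓜} (h : ∀ n, Nonempty (A n ≅ B n)) : eul S A = eul S B := by
  refine finsum_congr fun n => ?_
  obtain ⟨e⟩ := h n
  rw [(Linear.homCongr ℚ (Iso.refl S) e).finrank_eq]

/-- The additive function on `K_0(Var_k)`. -/
noncomputable def mu (w : ℤ) (S : 𝓜) : K0 k →+ ℤ :=
  QuotientAddGroup.lift _ (mu0 H w S) (by
    rw [AddSubgroup.closure_le]
    rintro r (⟨X, Y, ⟨e⟩, rfl⟩ | ⟨Z, X, U, i, j, ht, rfl⟩)
    · change mu0 H w S _ = 0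
      rw [map_sub, mu0, FreeAbelianGroup.lift_apply_of, FreeAbelianGroup.lift_apply_of, sub_eq_zero]
      exact eul_iso S fun n => H.iso n w X.1 Y.1 X.2 ⟨e⟩
    · change mu0 H w S _ = 0
      rw [map_sub, map_add, mu0, FreeAbelianGroup.lift_apply_of, FreeAbelianGroup.lift_apply_of,
        FreeAbelianGroup.lift_apply_of, sub_eq_zero]
      exact eul_triple H w S i j ht)

lemma mu_cls (w : ℤ) (S : 𝓜) (X : Var k) : mu H w S (cls X) = eul S fun n => H.h n w X.1 := by
  change mu0 H w S (FreeAbelianGroup.of X) = _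
  rw [mu0, FreeAbelianGroup.lift_apply_of]

/-- The class of a scheme whose pieces are in `P`, for weight `w` only. -/
theorem piece_of_mem (hP : IsThick P) {X : Var k} (hX : SmoothProjective X.1) (i : ℤ)
    (h : cls X ∈ AddSubgroup.closure {c | ∃ Y : Var k, (∀ n : ℤ, P (H.h n i Y.1)) ∧ c = cls Y}) :
    P (H.h i i X.1) := by
  by_contra hbad
  obtain ⟨S, s, r, hsr, hS, hS'⟩ := exists_bad H.semisimple (hP.good H.semisimple) _
    (H.h i i X.1) le_rfl hbad
  have hle : AddSubgroup.closure {c | ∃ Y : Var k, (∀ n : ℤ, P (H.h n i Y.1)) ∧ c = cls Y} ≤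
      (mu H i S).ker := by
    rw [AddSubgroup.closure_le]
    rintro c ⟨Y, hY, rfl⟩
    change mu H i S (cls Y) = 0
    rw [mu_cls, eul]
    refine finsum_eq_zero_of_forall_eq_zero fun n => ?_
    have hsub : Subsingleton (S ⟶ H.h n i Y.1) :=
      ⟨fun f g => by rw [hS' _ (hY n) f, hS' _ (hY n) g]⟩
    rw [finrank_zero_of_subsingleton, Nat.cast_zero, mul_zero]
  have h0 : mu H i S (cls X) = 0 := hle h
  rw [mu_cls, eul, finsum_eq_single _ i] at h0
  · have h1 : finrank ℚ (S ⟶ H.h i i X.1) = 0 := by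
      rcases mul_eq_zero.1 h0 with h2 | h2
      · exact absurd h2 (Units.ne_zero _)
      · exact_mod_cast h2
    have := H.semisimple.finite S (H.h i i X.1)
    have h2 : Subsingleton (S ⟶ H.h i i X.1) := finrank_zero_iff.1 h1
    have h3 : 𝟙 S = 0 := by rw [← hsr, Subsingleton.elim s 0, zero_comp]
    exact hS (hP.zero S ((IsZero.iff_id_eq_zero S).2 h3))
  · intro n hn
    rw [finrank_zero_of_isZero S (H.pure X.1 hX n i hn), Nat.cast_zero, mul_zero]

/-- The group generated by the classes of the schemes with all pieces in `P`. -/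
theorem in_iff_mem (hP : IsThick P) {X : Var k} (hX : SmoothProjective X.1) : H.In P X.1 ↔
    cls X ∈ AddSubgroup.closure {c | ∃ Y : Var k, H.In P Y.1 ∧ c = cls Y} := by
  refine ⟨fun h => AddSubgroup.subset_closure ⟨X, h, rfl⟩, fun h i w => ?_⟩
  by_cases hiw : i = w
  · subst hiw
    refine piece_of_mem H hP hX i (AddSubgroup.closure_mono ?_ h)
    rintro c ⟨Y, hY, rfl⟩
    exact ⟨Y, fun n => hY n i, rfl⟩
  · exact hP.zero _ (H.pure X.1 hX i w hiw)

end

section built

attribute [local instance] Abelian.hasFiniteBiproducts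

variable {k : Type} [Field k] {𝓜 : Type w} [Category.{x} 𝓜] [Abelian 𝓜]
  [Linear ℚ 𝓜] [MonoidalCategory 𝓜] {H : CompactCoh.{w, x} k 𝓜} {P : 𝓜 → Prop} {L : 𝓜}

omit [Linear ℚ 𝓜] [MonoidalCategory 𝓜] in
lemma biproduct_in (hP : IsThick P) {ι : Type} [Finite ι] (f : ι → 𝓜) (h : ∀ i, P (f i)) :
    P (⨁ f) := by
  classical
  have key : ∀ (n : ℕ) (f : Fin n → 𝓜), (∀ i, P (f i)) → P (⨁ f) := by
    intro n
    induction n with
    | zero =>
      intro f _
      refine hP.zero _ ?_
      rw [IsZero.iff_id_eq_zero]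
      exact biproduct.hom_ext _ _ fun j => j.elim0
    | succ n ih =>
      intro f hf
      have h1 := ih (fun i => f i.succ) fun i => hf _
      refine hP.retract (B := f 0 ⊞ ⨁ fun i : Fin n => f i.succ)
        (biprod.lift (biproduct.π f 0) (biproduct.lift fun i => biproduct.π f i.succ))
        (biprod.desc (biproduct.ι f 0) (biproduct.desc fun i => biproduct.ι f i.succ)) ?_
        (hP.sum _ _ (hf 0) h1)
      rw [biprod.lift_desc, biproduct.lift_desc, ← biproduct.total (f := f), Fin.sum_univ_succ]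
  obtain ⟨n, ⟨e⟩⟩ := Finite.exists_equiv_fin ι
  exact hP.iso (biproduct.whiskerEquiv (f := fun i => f (e.symm i)) (g := f) e.symm
    fun _ => Iso.refl _) (key n _ fun i => h _)

/-- The pieces of the schemes of the class `Built`. -/
theorem in_built (hH : IsMultiplicative H L) (hP : IsTensorThick P) (hL : P L) {B : Sch k → Prop}
    (h0 : ∀ X, FT True X → B X → H.In P X) {D : ℕ}
    (hD : ∀ X : Sch k, FT True X → topologicalKrullDim X.left ≤ D → H.In P X) :
    ∀ {X : Sch k}, Built k B D X → FT True X ∧ H.In P X := by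
  have h𝓜 := H.semisimple
  have hT := hP.toIsThick
  have hiso : ∀ {X Y : Sch k}, FT True X → Nonempty (X ≅ Y) → H.In P X → H.In P Y := by
    intro X Y hX e h i w
    obtain ⟨e'⟩ := H.iso i w X Y hX e
    exact hT.iso e' (h i w)
  have htotal : ∀ {Z X U : Sch k} (i : Z ⟶ X) (j : U ⟶ X), FT True X → IsTriple i j →
      H.In P Z → H.In P U → H.In P X := by
    intro Z X U i j h ht hZ hU n w
    obtain ⟨a, b, d, h1, h2, h3⟩ := H.sequence w i j h ht
    exact mid hT h𝓜 (h1 n) (hU n w) (hZ n w)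
  have hopened : ∀ {Z X U : Sch k} (i : Z ⟶ X) (j : U ⟶ X), FT True X → IsTriple i j →
      H.In P Z → H.In P X → H.In P U := by
    intro Z X U i j h ht hZ hX n w
    obtain ⟨a, b, d, h1, h2, h3⟩ := H.sequence w i j h ht
    obtain ⟨m, rfl⟩ : ∃ m, n = m + 1 := ⟨n - 1, by ring⟩
    exact mid hT h𝓜 (h3 m) (hZ m w) (hX (m + 1) w)
  have hclosed : ∀ {Z X U : Sch k} (i : Z ⟶ X) (j : U ⟶ X), FT True X → IsTriple i j →
      H.In P X → H.In P U → H.In P Z := by
    intro Z X U i j h ht hX hU n w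
    obtain ⟨a, b, d, h1, h2, h3⟩ := H.sequence w i j h ht
    exact mid hT h𝓜 (h2 n) (hX n w) (hU (n + 1) w)
  intro X hX
  induction hX with
  | base X hX hb => exact ⟨hX, h0 X hX hb⟩
  | dim X hX hd => exact ⟨hX, hD X hX hd⟩
  | sparse n G hG =>
    refine ⟨ft_aff True, ?_⟩
    have hd : ∀ (A : Type) [CommRing A] [Algebra k A] [Algebra.FiniteType k A],
        ringKrullDim A ≤ D → H.In P (aff k A) := fun A _ _ _ hA =>
      hD _ (ft_aff True) (by rw [topDim_aff]; exact hA)
    have hPos : Pool.Agent.U738.BN.Pos True (H.In P) := by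
      refine ⟨hiso, htotal, fun A _ _ _ h => ?_, fun A _ _ _ => ?_⟩
      · refine Pool.Agent.U738.BN.times_of_line hiso hopened ?_ h
        intro n w
        obtain ⟨i, rfl⟩ : ∃ i, n = i + 2 := ⟨n - 2, by ring⟩
        obtain ⟨v, rfl⟩ : ∃ v, w = v + 2 := ⟨w - 2, by ring⟩
        obtain ⟨e⟩ := hH.line A i v
        exact hT.iso e.symm (hP.tensor _ _ (h i v) hL)
      · have h1 : IsArtinianRing A := IsArtinianRing.of_finite k A
        have h2 : ringKrullDim A ≤ (0 : ℕ) := Ring.krullDimLE_iff.1 inferInstance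
        exact hd A (h2.trans (by exact_mod_cast Nat.zero_le D))
    exact Pool.Agent.U483.CX.small_finset hPos D hd G hG
  | prod p r hZ hf _ _ hX hY =>
    refine ⟨hf, fun n w => ?_⟩
    obtain ⟨s, ⟨e⟩⟩ := hH.kunneth p r hX.1 hY.1 hZ n w
    exact hT.iso e.symm (biproduct_in hT _ fun t => hP.tensor _ _ (hX.2 _ _) (hY.2 _ _))
  | cover π hπ _ hY =>
    refine ⟨hπ.ft', fun i w => ?_⟩
    obtain ⟨s, r, hsr⟩ := hH.transfer π hπ i w
    exact hT.retract s r hsr (hY.2 i w)
  | total i j hf ht _ _ hZ hU => exact ⟨hf, htotal i j hf ht hZ.2 hU.2⟩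
  | opened i j hf ht _ _ hZ hX => exact ⟨ft_opened j hf ht.opened, hopened i j hf ht hZ.2 hX.2⟩
  | closed i j hf ht _ _ hX hU => exact ⟨ft_closed i hf ht.closed, hclosed i j hf ht hX.2 hU.2⟩

/-- The smooth projective schemes whose classes are generated by the class `Built`. -/
theorem in_of_built (hH : IsMultiplicative H L) (hP : IsTensorThick P) (hL : P L) {B : Sch k → Prop}
    (h0 : ∀ X, FT True X → B X → H.In P X) {D : ℕ}
    (hD : ∀ X : Sch k, FT True X → topologicalKrullDim X.left ≤ D → H.In P X) {X : Var k}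
    (hX : SmoothProjective X.1)
    (h : cls X ∈ AddSubgroup.closure {c | ∃ Y : Var k, Built k B D Y.1 ∧ c = cls Y}) :
    H.In P X.1 := by
  refine (in_iff_mem H hP.toIsThick hX).2 (AddSubgroup.closure_mono ?_ h)
  rintro c ⟨Y, hY, rfl⟩
  exact ⟨Y, (in_built hH hP hL h0 hD hY).2, rfl⟩

end built

end Pool.Agent.U483.KP
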