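import Pool.Agent.U483.KP.AhDefs
import Pool.Agent.U483.KP.Main

/-!
# Hodge classes and absolute Hodge classes of motives
-/

set_option autoImplicit false

open CategoryTheory CategoryTheory.Limits

namespace Pool.Agent.U483.KP

universe w x

variable {𝓜 : Type w} [Category.{x} 𝓜] [Abelian 𝓜] (R : HodgeRealization.{w, x} 𝓜)

lemma ah_zero {A B : 𝓜} (x : R.V A) : R.map (0 : A ⟶ B) x = 0 := by
  have h := R.map_add (0 : A ⟶ B) 0 x
  rw [add_zero] at h
  simpa using h

theorem thick_ah : IsThick R.AllAbsolute where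
  zero A h m x _ := by
    have h1 : x = 0 := by
      rw [← R.map_id A x, (IsZero.iff_id_eq_zero A).1 h, ah_zero]
    rw [h1]
    exact zero_mem _
  retract s r h hB m x hx := by
    have h1 := R.map_absolute r m _ (hB m (R.map_hodge s m x hx))
    rwa [← R.map_comp, h, R.map_id] at h1
  sum A B hA hB m x hx := by
    have h1 := R.map_absolute (biprod.inl : A ⟶ A ⊞ B) m _
      (hA m (R.map_hodge (biprod.fst : A ⊞ B ⟶ A) m x hx))
    have h2 := R.map_absolute (biprod.inr : B ⟶ A ⊞ B) m _
      (hB m (R.map_hodge (biprod.snd : A ⊞ B ⟶ B) m x hx))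
    have h4 : x = R.map (biprod.fst ≫ biprod.inl + biprod.snd ≫ biprod.inr) x := by
      rw [biprod.total, R.map_id]
    rw [h4, R.map_add, R.map_comp, R.map_comp]
    exact add_mem h1 h2

end Pool.Agent.U483.KP
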