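import Pool.Agent.U483.KP.Defs

/-!
# Hodge classes and absolute Hodge classes of motives: definitions
-/

set_option autoImplicit false

open CategoryTheory CategoryTheory.Limits

namespace Pool.Agent.U483.KP

universe w x

/-- The Betti realization `V A` of the objects `A` of `𝓜`, an additive functor to the vector spaces over
`ℚ`, with subspaces `hodge m A` and `absolute m A` of `V A`: the Hodge classes and the absolute Hodge
classes in the twist `V(A)(m)`. The maps given by morphisms of `𝓜` respect both. -/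
structure HodgeRealization (𝓜 : Type w) [Category.{x} 𝓜] [Abelian 𝓜] where
  /-- the Betti realization -/
  V : 𝓜 → Type
  [grp : ∀ A, AddCommGroup (V A)]
  [mod : ∀ A, Module ℚ (V A)]
  /-- the map given by a morphism -/
  map : ∀ {A B : 𝓜}, (A ⟶ B) → (V A →ₗ[ℚ] V B)
  map_id : ∀ (A : 𝓜) (x : V A), map (𝟙 A) x = x
  map_comp : ∀ {A B C : 𝓜} (f : A ⟶ B) (g : B ⟶ C) (x : V A), map (f ≫ g) x = map g (map f x)
  map_add : ∀ {A B : 𝓜} (f g : A ⟶ B) (x : V A), map (f + g) x = map f x + map g x
  /-- the Hodge classes in `V(A)(m)` -/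
  hodge : ℤ → ∀ A, Submodule ℚ (V A)
  /-- the absolute Hodge classes in `V(A)(m)` -/
  absolute : ℤ → ∀ A, Submodule ℚ (V A)
  absolute_le : ∀ m A, absolute m A ≤ hodge m A
  map_hodge : ∀ {A B : 𝓜} (f : A ⟶ B) (m : ℤ), ∀ x ∈ hodge m A, map f x ∈ hodge m B
  map_absolute : ∀ {A B : 𝓜} (f : A ⟶ B) (m : ℤ), ∀ x ∈ absolute m A, map f x ∈ absolute m B

attribute [instance] HodgeRealization.grp HodgeRealization.mod

/-- All Hodge classes in the twists `V(A)(m)` are absolute Hodge classes. -/
def HodgeRealization.AllAbsolute {𝓜 : Type w} [Category.{x} 𝓜] [Abelian 𝓜]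
    (R : HodgeRealization.{w, x} 𝓜) (A : 𝓜) : Prop :=
  ∀ m : ℤ, R.hodge m A ≤ R.absolute m A

end Pool.Agent.U483.KP
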