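import Pool.Agent.U483.KM.Defs
import Pool.Agent.U483.GU.HDefs

/-!
# Pure motives, cohomology with compact support and classes of motives: definitions

`k` is a field with an embedding in `ℂ` and `𝓜` is the category of the pure motives over `k` for absolute
Hodge cycles (Deligne); it is a semisimple tensor category. For a separated scheme `X` of finite type over
`k` the object `h i w X` of `𝓜` is the graded piece `gr^W_w h^i_c(X)` of the cohomology with compact
support (Deligne, Jannsen); for a smooth projective `X` it is the motive `h^i(X)` for `i = w`, and `0`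
otherwise.
-/

set_option autoImplicit false

open CategoryTheory CategoryTheory.Limits AlgebraicGeometry MonoidalCategory Pool.Agent.Y116.UV
  Pool.Agent.U483.KM Pool.Agent.U483.GU

namespace Pool.Agent.U483.KP

universe w x

/-- The pieces `h i w X = gr^W_w h^i_c(X)` of the cohomology with compact support, in a semisimple
category, with the known properties: exact sequences of closed subschemes and their complements,
`h i w X = 0` for `i < 0` and for large `i`, purity for the smooth projective schemes. -/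
structure CompactCoh (k : Type) [Field k] (𝓜 : Type w) [Category.{x} 𝓜] [Abelian 𝓜] [Linear ℚ 𝓜] where
  semisimple : IsSemisimple 𝓜
  /-- the motive `gr^W_w h^i_c(X)` -/
  h : ℤ → ℤ → Sch k → 𝓜
  iso : ∀ (i w : ℤ) (X Y : Sch k), FT True X → Nonempty (X ≅ Y) → Nonempty (h i w X ≅ h i w Y)
  sequence : ∀ (w : ℤ) {Z X U : Sch k} (i : Z ⟶ X) (j : U ⟶ X), FT True X → IsTriple i j →
    LongExactIn (fun n => h n w U) (fun n => h n w X) (fun n => h n w Z)
  bounded : ∀ X : Sch k, FT True X → ∃ n : ℕ, ∀ i w : ℤ, (i < 0 ∨ n < i) → IsZero (h i w X)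
  pure : ∀ X : Sch k, SmoothProjective X → ∀ i w : ℤ, i ≠ w → IsZero (h i w X)

attribute [local instance] Abelian.hasFiniteBiproducts

/-- Künneth formula, homotopy invariance (`L` is the Lefschetz motive), and transfer for finite
coverings with normal target. -/
structure IsMultiplicative {k : Type} [Field k] {𝓜 : Type w} [Category.{x} 𝓜] [Abelian 𝓜]
    [Linear ℚ 𝓜] [MonoidalCategory 𝓜] (H : CompactCoh.{w, x} k 𝓜) (L : 𝓜) : Prop where
  kunneth : ∀ {X Y Z : Sch k} (p : Z ⟶ X) (r : Z ⟶ Y), FT True X → FT True Y → IsProd p r →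
    ∀ n w : ℤ, ∃ s : Finset (ℤ × ℤ), Nonempty (H.h n w Z ≅
      ⨁ fun t : s => H.h t.1.1 t.1.2 X ⊗ H.h (n - t.1.1) (w - t.1.2) Y)
  line : ∀ (A : Type) [CommRing A] [Algebra k A] [Algebra.FiniteType k A] (i w : ℤ),
    Nonempty (H.h (i + 2) (w + 2) (aff k (Polynomial A)) ≅ H.h i w (aff k A) ⊗ L)
  transfer : ∀ {Y Y' : Sch k} (π : Y ⟶ Y'), IsCover π → ∀ i w : ℤ,
    ∃ (s : H.h i w Y' ⟶ H.h i w Y) (r : H.h i w Y ⟶ H.h i w Y'), s ≫ r = 𝟙 (H.h i w Y')

/-- The class `P` contains the zero objects and is closed under direct factors and direct sums. -/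
structure IsThick {𝓜 : Type w} [Category.{x} 𝓜] [Abelian 𝓜] (P : 𝓜 → Prop) : Prop where
  zero : ∀ A : 𝓜, IsZero A → P A
  retract : ∀ {A B : 𝓜} (s : A ⟶ B) (r : B ⟶ A), s ≫ r = 𝟙 A → P B → P A
  sum : ∀ A B : 𝓜, P A → P B → P (A ⊞ B)

/-- `P` is a thick class which is closed under tensor products. -/
structure IsTensorThick {𝓜 : Type w} [Category.{x} 𝓜] [Abelian 𝓜] [MonoidalCategory 𝓜]
    (P : 𝓜 → Prop) : Prop extends IsThick P where
  tensor : ∀ A B : 𝓜, P A → P B → P (A ⊗ B)

/-- All pieces `h i w X` of `X` are in the class `P`. -/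
def CompactCoh.In {k : Type} [Field k] {𝓜 : Type w} [Category.{x} 𝓜] [Abelian 𝓜] [Linear ℚ 𝓜]
    (H : CompactCoh.{w, x} k 𝓜) (P : 𝓜 → Prop) (X : Sch k) : Prop := ∀ i w : ℤ, P (H.h i w X)

end Pool.Agent.U483.KP
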