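import Pool.Agent.U483.KP.Iso

/-!
# Motives modulo a thick class
-/

set_option autoImplicit false

open CategoryTheory CategoryTheory.Limits AlgebraicGeometry Module Pool.Agent.Y116.UV
  Pool.Agent.U483.KM Pool.Agent.U483.GU

namespace Pool.Agent.U483.KP

universe w x

section

variable {𝓜 : Type w} [Category.{x} 𝓜] [Abelian 𝓜] [Linear ℚ 𝓜] {P : 𝓜 → Prop}

/-- there are no nonzero morphisms from `S` to the members of `P` -/
def Orth (P : 𝓜 → Prop) (S : 𝓜) : Prop := ∀ C : 𝓜, P C → ∀ f : S ⟶ C, f = 0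

lemma finrank_end_lt (h : IsSemisimple 𝓜) {A I A' : 𝓜} (e : A ≅ I ⊞ A')
    (hI : finrank ℚ (I ⟶ I) ≠ 0) : finrank ℚ (A' ⟶ A') < finrank ℚ (A ⟶ A) := by
  have h3 : finrank ℚ (A ⟶ A) = finrank ℚ (A ⟶ I) + finrank ℚ (A ⟶ A') := by
    rw [finrank_of_iso A e, finrank_sum h]
  have inj : ∀ (C S X : 𝓜) (i : C ⟶ S) (p : S ⟶ C), i ≫ p = 𝟙 C →
      finrank ℚ (C ⟶ X) ≤ finrank ℚ (S ⟶ X) := by
    intro C S X i p hip
    have := h.finite S X
    refine LinearMap.finrank_le_finrank_of_injective (f := Linear.leftComp ℚ X p) ?_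
    intro u v huv
    have h4 : p ≫ u = p ≫ v := huv
    calc u = (i ≫ p) ≫ u := by rw [hip, Category.id_comp]
      _ = (i ≫ p) ≫ v := by rw [Category.assoc, h4, Category.assoc]
      _ = v := by rw [hip, Category.id_comp]
  have h5 := inj I A I (biprod.inl ≫ e.inv) (e.hom ≫ biprod.fst) (by simp)
  have h6 := inj A' A A' (biprod.inr ≫ e.inv) (e.hom ≫ biprod.snd) (by simp)
  omega

lemma end_ne_zero (h : IsSemisimple 𝓜) {A B : 𝓜} (f : A ⟶ B) (hf : f ≠ 0) :
    finrank ℚ (Limits.image f ⟶ Limits.image f) ≠ 0 := by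
  intro hc
  have := h.finite (Limits.image f) (Limits.image f)
  have h3 : Subsingleton (Limits.image f ⟶ Limits.image f) := finrank_zero_iff.1 hc
  apply hf
  rw [← Limits.image.fac f, ← Category.comp_id (factorThruImage f),
    Subsingleton.elim (𝟙 (Limits.image f)) 0, comp_zero, zero_comp]

/-- Each object is the sum of a member of `P` and an object without morphisms to `P`. -/
theorem decompose (h : IsSemisimple 𝓜) (hP : IsThick P) : ∀ (n : ℕ) (A : 𝓜),
    finrank ℚ (A ⟶ A) ≤ n → ∃ C A' : 𝓜, P C ∧ Orth P A' ∧ Nonempty (A ≅ C ⊞ A') := by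
  intro n
  induction n with
  | zero =>
    intro A hA
    have := h.finite A A
    have h3 : Subsingleton (A ⟶ A) := finrank_zero_iff.1 (Nat.le_zero.1 hA)
    have hz : IsZero A := (IsZero.iff_id_eq_zero A).2 (Subsingleton.elim _ _)
    refine ⟨A, A, hP.zero A hz, fun C _ f => hz.eq_of_src _ _, ⟨hz.iso ?_⟩⟩
    rw [IsZero.iff_id_eq_zero]
    ext <;> exact hz.eq_of_src _ _
  | succ n ih =>
    intro A hA
    by_cases ho : Orth P A
    · obtain ⟨C0, h0⟩ := HasZeroObject.zero (C := 𝓜)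
      have hC0 := hP.zero C0 h0
      refine ⟨C0, A, hC0, ho, ⟨⟨biprod.inr, biprod.snd, by simp, ?_⟩⟩⟩
      ext
      · exact h0.eq_of_src _ _
      · exact h0.eq_of_src _ _
      · exact h0.eq_of_tgt _ _
      · simp
    · unfold Orth at ho
      push Not at ho
      obtain ⟨C, hC, f, hf⟩ := ho
      obtain ⟨s, hs⟩ := epi_split h (factorThruImage f)
      obtain ⟨r, hr⟩ := mono_split h (Limits.image.ι f)
      obtain ⟨A1, ⟨e⟩⟩ := complement h s (factorThruImage f) hs
      have hI : P (Limits.image f) := hP.retract _ r hr hC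
      have hlt := finrank_end_lt h e (end_ne_zero h f hf)
      obtain ⟨C1, A', hC1, hA', ⟨e1⟩⟩ := ih A1 (by omega)
      refine ⟨Limits.image f ⊞ C1, A', hP.sum _ _ hI hC1, hA', ⟨e ≪≫ biprod.mapIso (Iso.refl _) e1 ≪≫
        ?_⟩⟩
      exact (biprod.associator _ _ _).symm

lemma orth_symm (h : IsSemisimple 𝓜) (hP : IsThick P) {A C : 𝓜} (hA : Orth P A) (hC : P C)
    (f : C ⟶ A) : f = 0 := by
  obtain ⟨s, hs⟩ := epi_split h (factorThruImage f)
  obtain ⟨r, hr⟩ := mono_split h (Limits.image.ι f)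
  have hI : P (Limits.image f) := hP.retract s _ hs hC
  have h1 : r = 0 := hA _ hI r
  rw [h1, comp_zero] at hr
  rw [← Limits.image.fac f, ← Category.comp_id (factorThruImage f), ← hr, comp_zero, zero_comp]

/-- Two objects with the same dimensions of the spaces of morphisms from the objects orthogonal to
`P` are isomorphic up to members of `P`. -/
theorem iso_mod (h : IsSemisimple 𝓜) (hP : IsThick P) (A B : 𝓜)
    (hAB : ∀ S : 𝓜, Orth P S → finrank ℚ (S ⟶ A) = finrank ℚ (S ⟶ B)) :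
    ∃ C C' M : 𝓜, P C ∧ P C' ∧ Nonempty (A ≅ C ⊞ M) ∧ Nonempty (B ≅ C' ⊞ M) := by
  obtain ⟨C, A', hC, hA', ⟨eA⟩⟩ := decompose h hP _ A le_rfl
  obtain ⟨C', B', hC', hB', ⟨eB⟩⟩ := decompose h hP _ B le_rfl
  have hz : ∀ S C : 𝓜, Orth P S → P C → finrank ℚ (S ⟶ C) = 0 := fun S C hS hC => by
    have : Subsingleton (S ⟶ C) := ⟨fun f g => by rw [hS C hC f, hS C hC g]⟩
    exact finrank_zero_of_subsingleton
  have hz' : ∀ S C : 𝓜, Orth P S → P C → finrank ℚ (C ⟶ S) = 0 := fun S C hS hC => by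
    have : Subsingleton (C ⟶ S) := ⟨fun f g => by rw [orth_symm h hP hS hC f, orth_symm h hP hS hC g]⟩
    exact finrank_zero_of_subsingleton
  have h1 : ∀ S : 𝓜, Orth P S → finrank ℚ (S ⟶ A') = finrank ℚ (S ⟶ B') := by
    intro S hS
    have h2 := hAB S hS
    rw [finrank_of_iso S eA, finrank_of_iso S eB, finrank_sum h, finrank_sum h, hz S C hS hC,
      hz S C' hS hC'] at h2
    omega
  have srcSum : ∀ X D E : 𝓜, finrank ℚ (D ⊞ E ⟶ X) = finrank ℚ (D ⟶ X) + finrank ℚ (E ⟶ X) := by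
    intro X D E
    have := h.finite D X
    have := h.finite E X
    let e : (D ⊞ E ⟶ X) ≃ₗ[ℚ] (D ⟶ X) × (E ⟶ X) :=
      { toFun := fun f => (biprod.inl ≫ f, biprod.inr ≫ f)
        invFun := fun f => biprod.desc f.1 f.2
        left_inv := fun f => by ext <;> simp
        right_inv := fun f => by ext <;> simp
        map_add' := fun f g => by ext <;> simp
        map_smul' := fun c f => by ext <;> simp }
    rw [e.finrank_eq, finrank_prod]
  obtain ⟨e⟩ := iso_of_finrank h _ A' B' le_rfl (by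
    intro S
    obtain ⟨D, S', hD, hS', ⟨eS⟩⟩ := decompose h hP _ S le_rfl
    rw [finrank_of_iso_src A' eS, finrank_of_iso_src B' eS, srcSum, srcSum, hz' A' D hA' hD,
      hz' B' D hB' hD, h1 S' hS'])
  exact ⟨C, C', A', hC, hC', ⟨eA⟩, ⟨eB ≪≫ biprod.mapIso (Iso.refl _) e.symm⟩⟩

end

variable {k : Type} [Field k] {𝓜 : Type w} [Category.{x} 𝓜] [Abelian 𝓜] [Linear ℚ 𝓜]
  (H : CompactCoh.{w, x} k 𝓜) {P : 𝓜 → Prop}

/-- Smooth projective schemes whose classes in `K_0(Var_k)` are congruent modulo the classes of the schemes with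
pieces (of weight `i`) in `P` have isomorphic motives `h^i` up to members of `P`. -/
theorem iso_mod_cls (hP : IsThick P) {X X' : Var k} (hX : SmoothProjective X.1)
    (hX' : SmoothProjective X'.1) (i : ℤ)
    (h : cls X - cls X' ∈ AddSubgroup.closure {c | ∃ Y : Var k, (∀ n : ℤ, P (H.h n i Y.1)) ∧ c = cls Y}) :
    ∃ C C' M : 𝓜, P C ∧ P C' ∧ Nonempty (H.h i i X.1 ≅ C ⊞ M) ∧
      Nonempty (H.h i i X'.1 ≅ C' ⊞ M) := by
  refine iso_mod H.semisimple hP _ _ fun S hS => ?_
  have hle : AddSubgroup.closure {c | ∃ Y : Var k, (∀ n : ℤ, P (H.h n i Y.1)) ∧ c = cls Y} ≤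
      (mu H i S).ker := by
    rw [AddSubgroup.closure_le]
    rintro c ⟨Y, hY, rfl⟩
    change mu H i S (cls Y) = 0
    rw [mu_cls, eul]
    refine finsum_eq_zero_of_forall_eq_zero fun n => ?_
    have hsub : Subsingleton (S ⟶ H.h n i Y.1) :=
      ⟨fun f g => by rw [hS _ (hY n) f, hS _ (hY n) g]⟩
    rw [finrank_zero_of_subsingleton, Nat.cast_zero, mul_zero]
  have h0 : mu H i S (cls X - cls X') = 0 := hle h
  rw [map_sub, sub_eq_zero, mu_pure H hX, mu_pure H hX'] at h0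
  have h2 := mul_left_cancel₀ (Units.ne_zero i.negOnePow) h0
  exact_mod_cast h2

end Pool.Agent.U483.KP
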