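import Pool.Agent.U483.KP.SsDefs
import Pool.Agent.U483.KP.Main
import Pool.Agent.U282.ZL.Gen2

/-!
# Semisimple representations attached to motives
-/

set_option autoImplicit false

open CategoryTheory CategoryTheory.Limits MonoidalCategory TensorProduct Module
  Pool.Agent.U282.ZL

namespace Pool.Agent.U483.KP

universe w x

section lin

variable {K G : Type} [Field K] [Group G]

lemma ss_of_injective {A B : Type} [AddCommGroup A] [Module K A] [AddCommGroup B] [Module K B]
    {ρ : Representation K G A} {σ : Representation K G B} (s : A →ₗ[K] B)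
    (hs : ∀ g x, s (ρ g x) = σ g (s x)) (hi : Function.Injective s) (h : SSRep σ) : SSRep ρ := by
  intro U hU
  obtain ⟨C, hC, hc⟩ := h (U.map s) (by
    rintro g _ ⟨u, hu, rfl⟩
    exact ⟨ρ g u, hU g u hu, hs g u⟩)
  refine ⟨C.comap s, fun g u hu => ?_, ?_⟩
  · rw [Submodule.mem_comap] at hu ⊢
    rw [hs]
    exact hC g _ hu
  · constructor
    · rw [Submodule.disjoint_def]
      intro a ha ha'
      have h1 := (Submodule.disjoint_def.1 hc.disjoint) (s a) ⟨a, ha, rfl⟩ ha'
      exact hi (by rw [h1, map_zero])
    · rw [codisjoint_iff, eq_top_iff]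
      intro a _
      have h1 : s a ∈ U.map s ⊔ C := by rw [hc.sup_eq_top]; trivial
      obtain ⟨_, ⟨u, hu, rfl⟩, c, hc', h2⟩ := Submodule.mem_sup.1 h1
      refine Submodule.mem_sup.2 ⟨u, hu, a - u, ?_, by abel⟩
      rw [Submodule.mem_comap, map_sub, ← h2, add_sub_cancel_left]
      exact hc'

/-- the product of two representations -/
def prodRep {A B : Type} [AddCommGroup A] [Module K A] [AddCommGroup B] [Module K B]
    (ρ : Representation K G A) (σ : Representation K G B) : Representation K G (A × B) where
  toFun g := (ρ g).prodMap (σ g)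
  map_one' := by
    ext <;> simp
  map_mul' a b := by
    ext <;> simp

lemma ss_prod {A B : Type} [AddCommGroup A] [Module K A] [AddCommGroup B] [Module K B]
    {ρ : Representation K G A} {σ : Representation K G B} (hA : SSRep ρ) (hB : SSRep σ) :
    SSRep (prodRep ρ σ) := by
  intro U hU
  obtain ⟨A', hA', hcA⟩ := hA (U.comap (LinearMap.inl K A B)) (by
    intro g u hu
    have h1 := hU g _ hu
    simpa [prodRep] using h1)
  obtain ⟨B', hB', hcB⟩ := hB (U.map (LinearMap.snd K A B)) (by
    rintro g _ ⟨u, hu, rfl⟩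
    exact ⟨_, hU g u hu, rfl⟩)
  refine ⟨A'.prod B', fun g u hu => ⟨hA' g _ hu.1, hB' g _ hu.2⟩, ?_, ?_⟩
  · rw [Submodule.disjoint_def]
    rintro ⟨a, b⟩ hu ⟨ha, hb⟩
    have h1 : b = 0 := (Submodule.disjoint_def.1 hcB.disjoint) b ⟨(a, b), hu, rfl⟩ hb
    subst h1
    have h2 : a = 0 := (Submodule.disjoint_def.1 hcA.disjoint) a hu ha
    rw [h2]
    rfl
  · rw [codisjoint_iff, eq_top_iff]
    rintro ⟨a, b⟩ _
    have h1 : b ∈ U.map (LinearMap.snd K A B) ⊔ B' := by rw [hcB.sup_eq_top]; trivial
    obtain ⟨_, ⟨⟨a₁, b₁⟩, hu, rfl⟩, b₂, hb₂, h2⟩ := Submodule.mem_sup.1 h1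
    have h3 : a - a₁ ∈ U.comap (LinearMap.inl K A B) ⊔ A' := by rw [hcA.sup_eq_top]; trivial
    obtain ⟨a₂, ha₂, a₃, ha₃, h4⟩ := Submodule.mem_sup.1 h3
    refine Submodule.mem_sup.2 ⟨(a₁, b₁) + (a₂, 0), U.add_mem hu ha₂, (a₃, b₂), ⟨ha₃, hb₂⟩, ?_⟩
    have h5 : b₁ + b₂ = b := h2
    have h6 : a₁ + a₂ + a₃ = a := by rw [add_assoc, h4]; abel
    simp only [Prod.mk_add_mk, add_zero, h5, h6]

/-- the tensor product of two representations -/
noncomputable def tenRep {A B : Type} [AddCommGroup A] [Module K A] [AddCommGroup B] [Module K B]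
    (ρ : Representation K G A) (σ : Representation K G B) : Representation K G (A ⊗[K] B) where
  toFun g := TensorProduct.map (ρ g) (σ g)
  map_one' := by
    ext
    simp
  map_mul' a b := by
    ext
    simp

lemma up0 {X : Type} (x y z : X) : Function.update ![x, y] 0 z = ![z, y] := by
  funext i
  fin_cases i <;> rfl

lemma up1 {X : Type} (x y z : X) : Function.update ![x, y] 1 z = ![x, z] := by
  funext i
  fin_cases i <;> rfl

/-- Chevalley's theorem for the tensor product of two representations. -/
lemma ss_ten [CharZero K] [IsAlgClosed K] {A B : Type} [AddCommGroup A] [Module K A]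
    [AddCommGroup B] [Module K B] [Module.Finite K A] [Module.Finite K B]
    {ρ : Representation K G A} {σ : Representation K G B} (hA : SSRep ρ) (hB : SSRep σ) :
    SSRep (tenRep ρ σ) := by
  have h1 := chevalley (prodRep ρ σ) (ss_prod hA hB) 2
  let inc : A ⊗[K] B →ₗ[K] ⨂[K] _ : Fin 2, (A × B) :=
    TensorProduct.lift (LinearMap.mk₂ K
      (fun a b => PiTensorProduct.tprod K ![((a, 0) : A × B), (0, b)])
      (fun a a' b => by
        have := (PiTensorProduct.tprod K (s := fun _ : Fin 2 => A × B)).map_update_add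
          ![((a, 0) : A × B), (0, b)] 0 (a, 0) (a', 0)
        simpa [up0] using this)
      (fun c a b => by
        have := (PiTensorProduct.tprod K (s := fun _ : Fin 2 => A × B)).map_update_smul
          ![((a, 0) : A × B), (0, b)] 0 c (a, 0)
        simpa [up0] using this)
      (fun a b b' => by
        have := (PiTensorProduct.tprod K (s := fun _ : Fin 2 => A × B)).map_update_add
          ![((a, 0) : A × B), (0, b)] 1 (0, b) (0, b')
        simpa [up1] using this)
      (fun c a b => by
        have := (PiTensorProduct.tprod K (s := fun _ : Fin 2 => A × B)).map_update_smul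
          ![((a, 0) : A × B), (0, b)] 1 c (0, b)
        simpa [up1] using this))
  have hinc : ∀ a b, inc (a ⊗ₜ b) = PiTensorProduct.tprod K ![((a, 0) : A × B), (0, b)] := by
    intro a b
    simp [inc]
  let ret : (⨂[K] _ : Fin 2, (A × B)) →ₗ[K] A ⊗[K] B :=
    PiTensorProduct.lift
      { toFun := fun v => (v 0).1 ⊗ₜ[K] (v 1).2
        map_update_add' := by
          intro _ v i x y
          fin_cases i
          · simp [Function.update, TensorProduct.add_tmul]
          · simp [Function.update, TensorProduct.tmul_add]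
        map_update_smul' := by
          intro _ v i c x
          fin_cases i
          · simp [Function.update, TensorProduct.smul_tmul']
          · simp [Function.update] }
  have hret : ∀ t, ret (inc t) = t := by
    intro t
    induction t using TensorProduct.induction_on with
    | zero => simp
    | tmul a b =>
      rw [hinc]
      simp [ret]
    | add s t hs ht => rw [map_add, map_add, hs, ht]
  refine ss_of_injective inc ?_ (Function.LeftInverse.injective hret) h1
  intro g t
  induction t using TensorProduct.induction_on with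
  | zero => simp
  | tmul a b =>
    have e1 : tenRep ρ σ g (a ⊗ₜ[K] b) = ρ g a ⊗ₜ[K] σ g b := by simp [tenRep]
    rw [e1, hinc, hinc]
    have e2 : tpow (prodRep ρ σ) 2 g (PiTensorProduct.tprod K ![((a, 0) : A × B), (0, b)]) =
        PiTensorProduct.tprod K fun i => prodRep ρ σ g (![((a, 0) : A × B), (0, b)] i) :=
      PiTensorProduct.map_tprod _ _
    rw [e2]
    congr 1
    funext i
    fin_cases i <;> simp [prodRep]
  | add s t hs ht => rw [map_add, map_add, map_add, map_add, hs, ht]

end lin

section

variable {𝓜 : Type w} [Category.{x} 𝓜] [Abelian 𝓜] [MonoidalCategory 𝓜] {G K : Type} [Group G]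
  [Field K] (R : Realization.{w, x} 𝓜 G K)

lemma real_zero {A B : 𝓜} (x : R.V A) : R.map (0 : A ⟶ B) x = 0 := by
  have h := R.map_add (0 : A ⟶ B) 0 x
  rw [add_zero] at h
  simpa using h

lemma real_subsingleton {A : 𝓜} (h : IsZero A) (x : R.V A) : x = 0 := by
  rw [← R.map_id A x, (IsZero.iff_id_eq_zero A).1 h, real_zero]

theorem thick_ss : IsThick fun A : 𝓜 => SSRep (R.ρ A) where
  zero A h U _ := by
    have h1 : ∀ U : Submodule K (R.V A), U = ⊥ := fun U =>
      (Submodule.eq_bot_iff _).2 fun x _ => real_subsingleton R h x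
    refine ⟨⊥, fun g u hu => ?_, disjoint_bot_right, ?_⟩
    · rw [Submodule.mem_bot] at hu ⊢
      rw [hu, map_zero]
    · rw [codisjoint_iff, h1 (U ⊔ ⊥), h1 ⊤]
  retract s r h hB := by
    refine ss_of_injective (R.map s) (fun g x => R.map_ρ s g x) ?_ hB
    refine Function.LeftInverse.injective (g := R.map r) fun x => ?_
    rw [← R.map_comp, h, R.map_id]
  sum A B hA hB := by
    have h1 := ss_prod hA hB
    refine ss_of_injective ((R.map (biprod.fst : A ⊞ B ⟶ A)).prod (R.map (biprod.snd : A ⊞ B ⟶ B)))
      (fun g x => ?_) ?_ h1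
    · exact Prod.ext (R.map_ρ _ g x) (R.map_ρ _ g x)
    · refine (injective_iff_map_eq_zero _).2 fun x hx => ?_
      have h2 : R.map (biprod.fst : A ⊞ B ⟶ A) x = 0 := congrArg Prod.fst hx
      have h3 : R.map (biprod.snd : A ⊞ B ⟶ B) x = 0 := congrArg Prod.snd hx
      have h4 : x = R.map (biprod.fst ≫ biprod.inl + biprod.snd ≫ biprod.inr) x := by
        rw [biprod.total, R.map_id]
      rw [h4, R.map_add, R.map_comp, R.map_comp, h2, h3, map_zero, map_zero, add_zero]

theorem tensorThick_ss [CharZero K] [IsAlgClosed K] :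
    IsTensorThick fun A : 𝓜 => SSRep (R.ρ A) where
  toIsThick := thick_ss R
  tensor A B hA hB := by
    have := R.finite A
    have := R.finite B
    obtain ⟨e, he⟩ := R.tensor A B
    exact ss_of_injective e.toLinearMap (σ := tenRep (R.ρ A) (R.ρ B)) he e.injective (ss_ten hA hB)

end

end Pool.Agent.U483.KP
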