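import Pool.Agent.U483.KP.TateDefs
import Pool.Agent.U483.KP.Ss

/-!
# Tate classes and motivic classes
-/

set_option autoImplicit false

open CategoryTheory CategoryTheory.Limits MonoidalCategory Pool.Agent.U282.ZL

namespace Pool.Agent.U483.KP

universe w x

variable {𝓜 : Type w} [Category.{x} 𝓜] [Abelian 𝓜] [MonoidalCategory 𝓜] {G K : Type} [Group G]
  [Field K] {R : Realization.{w, x} 𝓜 G K} (T : Twists R)

lemma tate_map {A B : 𝓜} (f : A ⟶ B) {m : ℤ} {x : R.V A} (h : T.IsTate m A x) :
    T.IsTate m B (R.map f x) := fun g => by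
  rw [← R.map_ρ, h g, map_smul]

lemma motivic_map {A B : 𝓜} (f : A ⟶ B) {m : ℤ} {x : R.V A} (h : x ∈ T.motivic m A) :
    R.map f x ∈ T.motivic m B := by
  have h1 : T.motivic m A ≤ (T.motivic m B).comap (R.map f) := by
    refine Submodule.span_le.2 ?_
    rintro _ ⟨a, rfl⟩
    refine Submodule.subset_span ⟨a ≫ f, ?_⟩
    rw [R.map_comp]
  exact h1 h

theorem thick_good : IsThick T.Good where
  zero A h := by
    refine ⟨(thick_ss R).zero A h, fun m x _ => ?_⟩
    rw [real_subsingleton R h x]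
    exact zero_mem _
  retract s r h hB := by
    refine ⟨(thick_ss R).retract s r h hB.1, fun m x hx => ?_⟩
    have h1 := motivic_map T r (hB.2 m _ (tate_map T s hx))
    rwa [← R.map_comp, h, R.map_id] at h1
  sum A B hA hB := by
    refine ⟨(thick_ss R).sum A B hA.1 hB.1, fun m x hx => ?_⟩
    have h1 := motivic_map T (biprod.inl : A ⟶ A ⊞ B)
      (hA.2 m _ (tate_map T (biprod.fst : A ⊞ B ⟶ A) hx))
    have h2 := motivic_map T (biprod.inr : B ⟶ A ⊞ B)
      (hB.2 m _ (tate_map T (biprod.snd : A ⊞ B ⟶ B) hx))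
    have h4 : x = R.map (biprod.fst ≫ biprod.inl + biprod.snd ≫ biprod.inr) x := by
      rw [biprod.total, R.map_id]
    rw [h4, R.map_add, R.map_comp, R.map_comp]
    exact add_mem h1 h2

end Pool.Agent.U483.KP
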