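import Pool.Agent.U483.KP.MtDefs
import Pool.Agent.U483.KP.Tate
import Pool.Agent.U483.KP.Iso
import Pool.Agent.U483.KP.Prd

/-!
# Hodge classes and Tate classes of motives
-/

set_option autoImplicit false

open CategoryTheory CategoryTheory.Limits MonoidalCategory AlgebraicGeometry Pool.Agent.Y116.UV Pool.Agent.U282.ZL
  Pool.Agent.U483.KM Pool.Agent.U483.GU

namespace Pool.Agent.U483.KP

universe w x

section

variable {𝓜 : Type w} [Category.{x} 𝓜] [Abelian 𝓜] [MonoidalCategory 𝓜] {G K : Type} [Group G]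
  [Field K] {R : Realization.{w, x} 𝓜 G K}

/-- Two natural families of subspaces agree for a thick class of objects. -/
theorem thick_nat {ι : Type} (S T : ι → ∀ A : 𝓜, Submodule K (R.V A))
    (hS : ∀ (m : ι) {A B : 𝓜} (f : A ⟶ B) (y : R.V A), y ∈ S m A → R.map f y ∈ S m B)
    (hT : ∀ (m : ι) {A B : 𝓜} (f : A ⟶ B) (y : R.V A), y ∈ T m A → R.map f y ∈ T m B) :
    IsThick fun A : 𝓜 => ∀ m, S m A = T m A := by
  have hr : ∀ (S : ι → ∀ A : 𝓜, Submodule K (R.V A)),
      (∀ (m : ι) {A B : 𝓜} (f : A ⟶ B) (y : R.V A), y ∈ S m A → R.map f y ∈ S m B) →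
      ∀ (m : ι) {A B : 𝓜} (s : A ⟶ B) (r : B ⟶ A), s ≫ r = 𝟙 A → ∀ y : R.V A,
        y ∈ S m A ↔ R.map s y ∈ S m B := by
    intro S hS m A B s r h y
    refine ⟨hS m s y, fun hy => ?_⟩
    have h1 := hS m r _ hy
    rwa [← R.map_comp, h, R.map_id] at h1
  have hsum : ∀ (S : ι → ∀ A : 𝓜, Submodule K (R.V A)),
      (∀ (m : ι) {A B : 𝓜} (f : A ⟶ B) (y : R.V A), y ∈ S m A → R.map f y ∈ S m B) →
      ∀ (m : ι) (A B : 𝓜) (y : R.V (A ⊞ B)), y ∈ S m (A ⊞ B) ↔
        R.map (biprod.fst : A ⊞ B ⟶ A) y ∈ S m A ∧ R.map (biprod.snd : A ⊞ B ⟶ B) y ∈ S m B := by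
    intro S hS m A B y
    refine ⟨fun hy => ⟨hS m _ y hy, hS m _ y hy⟩, fun hy => ?_⟩
    have h4 : y = R.map (biprod.fst ≫ biprod.inl + biprod.snd ≫ biprod.inr) y := by
      rw [biprod.total, R.map_id]
    rw [h4, R.map_add, R.map_comp, R.map_comp]
    exact add_mem (hS m _ _ hy.1) (hS m _ _ hy.2)
  refine ⟨fun A h m => ?_, fun {A B} s r h hB m => ?_, fun A B hA hB m => ?_⟩
  · have h1 : ∀ U : Submodule K (R.V A), U = ⊥ := fun U =>
      (Submodule.eq_bot_iff _).2 fun y _ => real_subsingleton R h y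
    rw [h1 (S m A), h1 (T m A)]
  · ext y
    rw [hr S hS m s r h y, hr T hT m s r h y, hB m]
  · ext y
    rw [hsum S hS m A B y, hsum T hT m A B y, hA m, hB m]

lemma hodgeSpan_map (Q : Betti R) (m : ℤ) {A B : 𝓜} (f : A ⟶ B) (y : R.V A)
    (h : y ∈ Q.hodgeSpan m A) : R.map f y ∈ Q.hodgeSpan m B := by
  have h1 : Q.hodgeSpan m A ≤ (Q.hodgeSpan m B).comap (R.map f) := by
    refine Submodule.span_le.2 ?_
    rintro _ ⟨z, hz, rfl⟩
    refine Submodule.subset_span ⟨Q.map f z, Q.map_hodge f m z hz, ?_⟩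
    rw [Q.comp_map]
  exact h1 h

lemma tateSpan_map (T : Twists R) (m : ℤ) {A B : 𝓜} (f : A ⟶ B) (y : R.V A)
    (h : y ∈ T.tateSpan m A) : R.map f y ∈ T.tateSpan m B := by
  have h1 : T.tateSpan m A ≤ (T.tateSpan m B).comap (R.map f) := by
    refine Submodule.span_le.2 ?_
    rintro z ⟨U, hU, hz⟩
    refine Submodule.subset_span ⟨U, hU, fun g hg => ?_⟩
    rw [← R.map_ρ, hz g hg, map_smul]
  exact h1 h

theorem thick_agree (T : Twists R) (Q : Betti R) : IsThick (Agree T Q) :=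
  thick_nat (fun m A => Q.hodgeSpan m A) (fun m A => T.tateSpan m A)
    (fun m _ _ f y => hodgeSpan_map Q m f y) fun m _ _ f y => tateSpan_map T m f y

lemma generated_iso (T : Twists R) {M M' : 𝓜} (e : M ≅ M') {A : 𝓜} (h : T.Generated M A) :
    T.Generated M' A := fun 𝒜 h1 h2 h3 => h 𝒜 h1 (h1.toIsThick.iso e.symm h2) h3

lemma mumfordTate_iso (T : Twists R) (Q : Betti R) {M M' : 𝓜} (e : M ≅ M') :
    MumfordTate T Q M ↔ MumfordTate T Q M' :=
  ⟨fun h A hA => h A (generated_iso T e.symm hA), fun h A hA => h A (generated_iso T e hA)⟩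

end

section

variable {k : Type} [Field k]

lemma isPow_ft {X : Sch k} (hX : FT True X) {n : ℕ} {Z : Sch k} (h : IsPow X n Z) : FT True Z := by
  induction h with
  | one => exact hX
  | succ p r _ h1 _ => exact h1

/-- Powers of schemes with the same class have the same class. -/
theorem cls_pow {X X' : Var k} (h : cls X = cls X') {n : ℕ} : ∀ {Z Z' : Sch k} (hZ : FT True Z)
    (hZ' : FT True Z'), IsPow X.1 n Z → IsPow X'.1 n Z' → cls (⟨Z, hZ⟩ : Var k) = cls ⟨Z', hZ'⟩ := by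
  induction n with
  | zero =>
    intro Z Z' hZ hZ' h1 h2
    cases h1
  | succ n ih =>
    intro Z Z' hZ hZ' h1 h2
    cases h1 with
    | one =>
      cases h2 with
      | one => exact h
      | succ p' r' h3 _ _ => cases h3
    | succ p r h3 _ h5 =>
      cases h2 with
      | one => cases h3
      | succ p' r' h3' _ h5' =>
        have e := ih (isPow_ft X.2 h3) (isPow_ft X'.2 h3') h3 h3'
        exact cls_prod (Z := ⟨Z, hZ⟩) (Z' := ⟨Z', hZ'⟩) (X := ⟨_, isPow_ft X.2 h3⟩)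
          (X' := ⟨_, isPow_ft X'.2 h3'⟩) (Y := X) (Y' := X') h5 h5' e h

end

end Pool.Agent.U483.KP
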