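import Pool.Agent.U483.KP.TateDefs

/-!
# Hodge classes and Tate classes of motives: definitions
-/

set_option autoImplicit false

open CategoryTheory CategoryTheory.Limits MonoidalCategory AlgebraicGeometry Pool.Agent.Y116.UV Pool.Agent.U282.ZL
  Pool.Agent.U483.KM Pool.Agent.U483.GU

namespace Pool.Agent.U483.KP

universe w x

/-- The Betti realization `B A` of the objects `A` of `𝓜` with the space `hodge m A` of the Hodge classes in
`B(A)(m)`, and Artin's comparison of `K ⊗ B A` with the (`ℓ`-adic) realization `R.V A`. -/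
structure Betti {𝓜 : Type w} [Category.{x} 𝓜] [Abelian 𝓜] [MonoidalCategory 𝓜] {G K : Type} [Group G]
    [Field K] (R : Realization.{w, x} 𝓜 G K) where
  /-- the Betti realization -/
  B : 𝓜 → Type
  [grp : ∀ A, AddCommGroup (B A)]
  [mod : ∀ A, Module ℚ (B A)]
  /-- the map given by a morphism -/
  map : ∀ {A A' : 𝓜}, (A ⟶ A') → (B A →ₗ[ℚ] B A')
  /-- the comparison map -/
  comp : ∀ A, B A →+ R.V A
  comp_map : ∀ {A A' : 𝓜} (f : A ⟶ A') (y : B A), comp A' (map f y) = R.map f (comp A y)
  basis : ∀ (A : 𝓜) (ι : Type) (b : Module.Basis ι ℚ (B A)), ∃ c : Module.Basis ι K (R.V A),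
    ∀ i, c i = comp A (b i)
  /-- the Hodge classes in `B(A)(m)` -/
  hodge : ℤ → ∀ A, Submodule ℚ (B A)
  map_hodge : ∀ {A A' : 𝓜} (f : A ⟶ A') (m : ℤ), ∀ y ∈ hodge m A, map f y ∈ hodge m A'

attribute [instance] Betti.grp Betti.mod

variable {𝓜 : Type w} [Category.{x} 𝓜] [Abelian 𝓜] [MonoidalCategory 𝓜] {G K : Type} [Group G]
  [Field K] {R : Realization.{w, x} 𝓜 G K}

/-- The subspace generated by the Hodge classes. -/
def Betti.hodgeSpan (Q : Betti R) (m : ℤ) (A : 𝓜) : Submodule K (R.V A) :=
  Submodule.span K {y | ∃ z ∈ Q.hodge m A, y = Q.comp A z}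

/-- The subspace generated by the (potential) Tate classes, on which a subgroup of finite index acts by
`χ ^ m`. -/
def Twists.tateSpan (T : Twists R) (m : ℤ) (A : 𝓜) : Submodule K (R.V A) :=
  Submodule.span K {y | ∃ U : Subgroup G, U.FiniteIndex ∧
    ∀ g ∈ U, R.ρ A g y = ((T.χ g ^ m : Kˣ) : K) • y}

/-- The Hodge classes and the Tate classes in all `V(A)(m)` generate the same subspace. -/
def Agree (T : Twists R) (Q : Betti R) (A : 𝓜) : Prop := ∀ m : ℤ, Q.hodgeSpan m A = T.tateSpan m A

/-- The Mumford-Tate conjecture for `M`: all motives in the tensor category generated by `M` and the Tate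
motives (it contains the dual of `M` because `M` is polarizable) have semisimple realizations, and
the Hodge classes and the Tate classes in them generate the same subspace. -/
def MumfordTate (T : Twists R) (Q : Betti R) (M : 𝓜) : Prop :=
  ∀ A : 𝓜, T.Generated M A → SSRep (R.ρ A) ∧ Agree T Q A

/-- `C` is in the tensor category generated by the Tate motives. -/
def TateType (T : Twists R) (C : 𝓜) : Prop :=
  ∀ 𝒜 : 𝓜 → Prop, IsTensorThick 𝒜 → (∀ m, 𝒜 (T.tw m)) → 𝒜 C

/-- `Z` is the `n`-fold power of `X` over `k`, `n ≥ 1`. -/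
inductive IsPow {k : Type} [Field k] (X : Sch k) : ℕ → Sch k → Prop
  | one : IsPow X 1 X
  | succ {n : ℕ} {Z W : Sch k} (p : W ⟶ Z) (r : W ⟶ X) : IsPow X n Z → FT True W → IsProd p r →
      IsPow X (n + 1) W

end Pool.Agent.U483.KP
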