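import Pool.Agent.U483.KP.Mt
import Pool.Agent.U483.KP.IsoMod

/-!
# The tensor categories generated by motives, modulo Tate motives
-/

set_option autoImplicit false

open CategoryTheory CategoryTheory.Limits MonoidalCategory AlgebraicGeometry Pool.Agent.Y116.UV
  Pool.Agent.U282.ZL Pool.Agent.U483.KM Pool.Agent.U483.GU

namespace Pool.Agent.U483.KP

universe w x

section

variable {𝓜 : Type w} [Category.{x} 𝓜] [Abelian 𝓜] [MonoidalCategory 𝓜] {G K : Type} [Group G]
  [Field K] {R : Realization.{w, x} 𝓜 G K}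

lemma thick_tateType (T : Twists R) : IsThick (TateType T) where
  zero A h 𝒜 h𝒜 _ := h𝒜.toIsThick.zero A h
  retract s r h hB 𝒜 h𝒜 ht := h𝒜.toIsThick.retract s r h (hB 𝒜 h𝒜 ht)
  sum A B hA hB 𝒜 h𝒜 ht := h𝒜.toIsThick.sum A B (hA 𝒜 h𝒜 ht) (hB 𝒜 h𝒜 ht)

lemma generated_sum (T : Twists R) {C M A : 𝓜} (hC : TateType T C) :
    T.Generated (C ⊞ M) A ↔ T.Generated M A := by
  constructor
  · intro h 𝒜 h1 h2 h3
    exact h 𝒜 h1 (h1.toIsThick.sum _ _ (hC 𝒜 h1 h3) h2) h3
  · intro h 𝒜 h1 h2 h3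
    exact h 𝒜 h1 (h1.toIsThick.retract (biprod.inr : M ⟶ C ⊞ M) biprod.snd (by simp) h2) h3

lemma generated_congr (T : Twists R) {M M' A : 𝓜} (e : M ≅ M') :
    T.Generated M A ↔ T.Generated M' A := ⟨generated_iso T e, generated_iso T e.symm⟩

end

section

variable {k : Type} [Field k] {𝓜 : Type w} [Category.{x} 𝓜] [Abelian 𝓜] [Linear ℚ 𝓜]
  [MonoidalCategory 𝓜] {G K : Type} [Group G] [Field K] (H : CompactCoh.{w, x} k 𝓜)
  {R : Realization.{w, x} 𝓜 G K} (T : Twists R)

/-- If the classes of `X` and `X'` are congruent modulo the classes of schemes whose pieces of weight `i`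
are Tate motives then `h^i(X)` and `h^i(X')` generate the same tensor category. -/
theorem generated_mod {X X' : Var k} (hX : SmoothProjective X.1) (hX' : SmoothProjective X'.1)
    (i : ℤ) (h : cls X - cls X' ∈
      AddSubgroup.closure {c | ∃ Y : Var k, (∀ n : ℤ, TateType T (H.h n i Y.1)) ∧ c = cls Y})
    (A : 𝓜) : T.Generated (H.h i i X.1) A ↔ T.Generated (H.h i i X'.1) A := by
  obtain ⟨C, C', M, hC, hC', ⟨e⟩, ⟨e'⟩⟩ := iso_mod_cls H (thick_tateType T) hX hX' i h
  rw [generated_congr T e, generated_congr T e', generated_sum T hC, generated_sum T hC']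

end

end Pool.Agent.U483.KP
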