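import Pool.Agent.U483.KP.Defs
import Pool.Agent.U282.ZL.Gen1

/-!
# Representations attached to motives: definitions
-/

set_option autoImplicit false

open CategoryTheory CategoryTheory.Limits MonoidalCategory TensorProduct

namespace Pool.Agent.U483.KP

universe w x

/-- The realizations of motives as finite-dimensional representations of the (Galois) group `G` over
the field `K`: an additive functor which is compatible with tensor products. -/
structure Realization (𝓜 : Type w) [Category.{x} 𝓜] [Abelian 𝓜] [MonoidalCategory 𝓜] (G K : Type)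
    [Group G] [Field K] where
  /-- the space of the representation -/
  V : 𝓜 → Type
  [grp : ∀ A, AddCommGroup (V A)]
  [mod : ∀ A, Module K (V A)]
  finite : ∀ A, Module.Finite K (V A)
  /-- the action of the group -/
  ρ : ∀ A, Representation K G (V A)
  /-- the map given by a morphism -/
  map : ∀ {A B : 𝓜}, (A ⟶ B) → (V A →ₗ[K] V B)
  map_ρ : ∀ {A B : 𝓜} (f : A ⟶ B) (g : G) (x : V A), map f (ρ A g x) = ρ B g (map f x)
  map_id : ∀ (A : 𝓜) (x : V A), map (𝟙 A) x = x
  map_comp : ∀ {A B C : 𝓜} (f : A ⟶ B) (g : B ⟶ C) (x : V A), map (f ≫ g) x = map g (map f x)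
  map_add : ∀ {A B : 𝓜} (f g : A ⟶ B) (x : V A), map (f + g) x = map f x + map g x
  tensor : ∀ A B : 𝓜, ∃ e : V (A ⊗ B) ≃ₗ[K] V A ⊗[K] V B,
    ∀ (g : G) (x : V (A ⊗ B)), e (ρ (A ⊗ B) g x) = TensorProduct.map (ρ A g) (ρ B g) (e x)

attribute [instance] Realization.grp Realization.mod

end Pool.Agent.U483.KP
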