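import Pool.Agent.U483.KP.SsDefs

/-!
# Tate classes and motivic classes: definitions
-/

set_option autoImplicit false

open CategoryTheory CategoryTheory.Limits MonoidalCategory Pool.Agent.U282.ZL

namespace Pool.Agent.U483.KP

universe w x

variable {𝓜 : Type w} [Category.{x} 𝓜] [Abelian 𝓜] [MonoidalCategory 𝓜] {G K : Type} [Group G]
  [Field K]

/-- The Tate motives `tw m` (the tensor powers of the Lefschetz motive and of its dual), and the character
`χ` of the group `G`: the realization of `tw m` is the line generated by `gen m`, and `G` acts on it by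
`χ ^ m`. -/
structure Twists (R : Realization.{w, x} 𝓜 G K) where
  /-- the character on the realization of `tw 1` -/
  χ : G →* Kˣ
  /-- the Tate motives -/
  tw : ℤ → 𝓜
  /-- a generator of the line -/
  gen : ∀ m, R.V (tw m)
  gen_ρ : ∀ (m : ℤ) (g : G), R.ρ (tw m) g (gen m) = ((χ g ^ m : Kˣ) : K) • gen m
  line : ∀ (m : ℤ) (x : R.V (tw m)), ∃ c : K, x = c • gen m

variable {R : Realization.{w, x} 𝓜 G K} (T : Twists R)

/-- `x` is a Tate class (of degree `m`) in the realization of `A`. -/
def Twists.IsTate (m : ℤ) (A : 𝓜) (x : R.V A) : Prop :=
  ∀ g : G, R.ρ A g x = ((T.χ g ^ m : Kˣ) : K) • x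

/-- The linear combinations of the images of `gen m` under the morphisms of motives `tw m → A`. -/
def Twists.motivic (m : ℤ) (A : 𝓜) : Submodule K (R.V A) :=
  Submodule.span K {x | ∃ f : T.tw m ⟶ A, x = R.map f (T.gen m)}

/-- The realization of `A` is semisimple, and all Tate classes in it are combinations of classes given by
morphisms of motives. -/
def Twists.Good (A : 𝓜) : Prop :=
  SSRep (R.ρ A) ∧ ∀ (m : ℤ) (x : R.V A), T.IsTate m A x → x ∈ T.motivic m A

/-- `A` is in the tensor category generated by `M` and the Tate motives: `A` is in all classes of motives which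
contain `M` and the `tw m` and are closed under direct factors, direct sums and tensor products. -/
def Twists.Generated (M A : 𝓜) : Prop :=
  ∀ 𝒜 : 𝓜 → Prop, IsTensorThick 𝒜 → 𝒜 M → (∀ m, 𝒜 (T.tw m)) → 𝒜 A

/-- The motivic Tate conjecture for `M`: the realization is semisimple and all Tate classes are
motivic, for all motives in the tensor category generated by `M` and the Tate motives (the `ℓ`-adic
monodromy group of `M` is the motivic Galois group). -/
def Twists.MotivicTate (M : 𝓜) : Prop := ∀ A : 𝓜, T.Generated M A → T.Good A

end Pool.Agent.U483.KP
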